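import Mathlib

set_option autoImplicit false

namespace Pool.Agent.TH177.LH

open FirstOrder FirstOrder.Language

variable {H : Type} [CommRing H] [FirstOrder.Ring.CompatibleRing H]

/-- term functions -/
def TD (α : Type) (F : (α → H) → H) : Prop :=
  ∃ t : FirstOrder.Language.ring.Term α, ∀ v : α → H, t.realize v = F v

/-- definable predicates -/
def Dfn (α : Type) (p : (α → H) → Prop) : Prop :=
  ∃ φ : FirstOrder.Language.ring.Formula α, ∀ v : α → H, φ.Realize v ↔ p v

theorem TD.var {α : Type} (i : α) : TD (H := H) α (fun v => v i) :=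
  ⟨Term.var i, fun _ => rfl⟩

theorem TD.zero {α : Type} : TD (H := H) α (fun _ => 0) :=
  ⟨0, fun v => FirstOrder.Ring.realize_zero v⟩

theorem TD.one {α : Type} : TD (H := H) α (fun _ => 1) :=
  ⟨1, fun v => FirstOrder.Ring.realize_one v⟩

theorem TD.add {α : Type} {F G : (α → H) → H} (hF : TD α F) (hG : TD α G) :
    TD α (fun v => F v + G v) := by
  obtain ⟨s, hs⟩ := hF
  obtain ⟨t, ht⟩ := hG
  exact ⟨s + t, fun v => by rw [FirstOrder.Ring.realize_add, hs, ht]⟩

theorem TD.mul {α : Type} {F G : (α → H) → H} (hF : TD α F) (hG : TD α G) :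
    TD α (fun v => F v * G v) := by
  obtain ⟨s, hs⟩ := hF
  obtain ⟨t, ht⟩ := hG
  exact ⟨s * t, fun v => by rw [FirstOrder.Ring.realize_mul, hs, ht]⟩

theorem TD.neg {α : Type} {F : (α → H) → H} (hF : TD α F) :
    TD α (fun v => - F v) := by
  obtain ⟨s, hs⟩ := hF
  exact ⟨-s, fun v => by rw [FirstOrder.Ring.realize_neg, hs]⟩

theorem TD.sub {α : Type} {F G : (α → H) → H} (hF : TD α F) (hG : TD α G) :
    TD α (fun v => F v - G v) := by
  have := hF.add hG.neg
  simpa only [sub_eq_add_neg] using this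

theorem TD.pow {α : Type} {F : (α → H) → H} (hF : TD α F) (n : ℕ) :
    TD α (fun v => F v ^ n) := by
  induction n with
  | zero => simpa using TD.one
  | succ n ih => simpa only [pow_succ] using ih.mul hF

theorem TD.sum {α ι : Type} (s : Finset ι) {F : ι → (α → H) → H} (hF : ∀ i, TD α (F i)) :
    TD α (fun v => ∑ i ∈ s, F i v) := by
  classical
  induction s using Finset.induction_on with
  | empty => simpa using TD.zero
  | insert a s ha ih => simpa only [Finset.sum_insert ha] using (hF a).add ih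

theorem TD.prod {α ι : Type} (s : Finset ι) {F : ι → (α → H) → H} (hF : ∀ i, TD α (F i)) :
    TD α (fun v => ∏ i ∈ s, F i v) := by
  classical
  induction s using Finset.induction_on with
  | empty => simpa using TD.one
  | insert a s ha ih => simpa only [Finset.prod_insert ha] using (hF a).mul ih

theorem TD.lift {α β : Type} {F : (α → H) → H} (hF : TD α F) (g : α → β) :
    TD β (fun w => F (w ∘ g)) := by
  obtain ⟨s, hs⟩ := hF
  exact ⟨s.relabel g, fun v => by rw [Term.realize_relabel, hs]⟩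

theorem Dfn.eq {α : Type} {F G : (α → H) → H} (hF : TD α F) (hG : TD α G) :
    Dfn α (fun v => F v = G v) := by
  obtain ⟨s, hs⟩ := hF
  obtain ⟨t, ht⟩ := hG
  exact ⟨s.equal t, fun v => by rw [Formula.realize_equal, hs, ht]⟩

theorem Dfn.and {α : Type} {p q : (α → H) → Prop} (hp : Dfn α p) (hq : Dfn α q) :
    Dfn α (fun v => p v ∧ q v) := by
  obtain ⟨s, hs⟩ := hp
  obtain ⟨t, ht⟩ := hq
  exact ⟨s ⊓ t, fun v => by rw [Formula.realize_inf, hs, ht]⟩

theorem Dfn.not {α : Type} {p : (α → H) → Prop} (hp : Dfn α p) :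
    Dfn α (fun v => ¬ p v) := by
  obtain ⟨s, hs⟩ := hp
  exact ⟨s.not, fun v => by rw [Formula.realize_not, hs]⟩

theorem Dfn.or {α : Type} {p q : (α → H) → Prop} (hp : Dfn α p) (hq : Dfn α q) :
    Dfn α (fun v => p v ∨ q v) := by
  obtain ⟨s, hs⟩ := (hp.not.and hq.not).not
  exact ⟨s, fun v => by rw [hs]; tauto⟩

theorem Dfn.imp {α : Type} {p q : (α → H) → Prop} (hp : Dfn α p) (hq : Dfn α q) :
    Dfn α (fun v => p v → q v) := by
  obtain ⟨s, hs⟩ := hp.not.or hq
  exact ⟨s, fun v => by rw [hs]; tauto⟩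

theorem Dfn.ex {α β : Type} [Finite β] {p : (α → H) → (β → H) → Prop}
    (hp : Dfn (α ⊕ β) (fun w => p (fun i => w (Sum.inl i)) (fun i => w (Sum.inr i)))) :
    Dfn α (fun v => ∃ x : β → H, p v x) := by
  obtain ⟨s, hs⟩ := hp
  refine ⟨s.iExs β, fun v => ?_⟩
  rw [Formula.realize_iExs]
  refine exists_congr fun x => ?_
  rw [hs]
  rfl

theorem Dfn.ex1 {α : Type} {p : (α → H) → H → Prop}
    (hp : Dfn (α ⊕ Unit) (fun w => p (fun i => w (Sum.inl i)) (w (Sum.inr ())))) :
    Dfn α (fun v => ∃ x : H, p v x) := by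
  obtain ⟨s, hs⟩ := Dfn.ex (β := Unit) (p := fun v x => p v (x ())) hp
  refine ⟨s, fun v => ?_⟩
  rw [hs]
  exact ⟨fun ⟨x, hx⟩ => ⟨x (), hx⟩, fun ⟨x, hx⟩ => ⟨fun _ => x, hx⟩⟩

theorem Dfn.all {α β : Type} [Finite β] {p : (α → H) → (β → H) → Prop}
    (hp : Dfn (α ⊕ β) (fun w => p (fun i => w (Sum.inl i)) (fun i => w (Sum.inr i)))) :
    Dfn α (fun v => ∀ x : β → H, p v x) := by
  obtain ⟨s, hs⟩ := (Dfn.ex (p := fun v x => ¬ p v x) hp.not).not
  exact ⟨s, fun v => by rw [hs]; push Not; rfl⟩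

theorem Dfn.all1 {α : Type} {p : (α → H) → H → Prop}
    (hp : Dfn (α ⊕ Unit) (fun w => p (fun i => w (Sum.inl i)) (w (Sum.inr ())))) :
    Dfn α (fun v => ∀ x : H, p v x) := by
  obtain ⟨s, hs⟩ := (Dfn.ex1 (p := fun v x => ¬ p v x) hp.not).not
  exact ⟨s, fun v => by rw [hs]; push Not; rfl⟩

theorem Dfn.finAll {α : Type} {ι : Type} [Finite ι] {p : ι → (α → H) → Prop}
    (hp : ∀ i, Dfn α (p i)) : Dfn α (fun v => ∀ i, p i v) := by
  classical
  cases nonempty_fintype ι
  have key : ∀ s : Finset ι, Dfn α (fun v => ∀ i ∈ s, p i v) := by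
    intro s
    induction s using Finset.induction_on with
    | empty =>
      obtain ⟨t, ht⟩ := Dfn.eq (H := H) (α := α) TD.zero TD.zero
      exact ⟨t, fun v => by rw [ht]; simp⟩
    | insert a s ha ih =>
      obtain ⟨t, ht⟩ := (hp a).and ih
      exact ⟨t, fun v => by rw [ht]; simp⟩
  obtain ⟨t, ht⟩ := key Finset.univ
  exact ⟨t, fun v => by rw [ht]; simp⟩

end Pool.Agent.TH177.LH
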