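import Pool.Agent.TH177.LH.Dfn

set_option autoImplicit false

namespace Pool.Agent.TH177.LH

open FirstOrder FirstOrder.Language

/-- zero or a unit -/
def isC {H : Type} [CommRing H] (c : H) : Prop := c = 0 ∨ ∃ d : H, c * d = 1

/-- zero or a unit modulo `π` -/
def UU {H : Type} [CommRing H] (π c : H) : Prop :=
  (∃ q : H, c = π * q) ∨ ∃ d : H, ∃ q : H, c * d = 1 + π * q

/-- the subring generated by `t` -/
def RR {H : Type} [CommRing H] (t f : H) : Prop :=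
  ∀ π : H, ((∀ a b : H, (UU π a ∧ UU π b) → UU π (a + b)) ∧ UU π t) → UU π f

/-- degree bound relation -/
def DD {H : Type} [CommRing H] {k : ℕ} (z : Fin (k + 2) → H) (f u : H) : Prop :=
  ∀ a : H, (RR (z 0) a ∧ ¬ a = 0) → ∀ b : Fin (k + 1) → H, (∀ i, RR (z 0) (b i)) →
    ∃ U : H, RR (z 0) U ∧ (∃ q : H, u = U + (z 1 - a) * q) ∧
      ∃ g : H, RR (z 0) g ∧ ∃ c : Fin (k + 1) → H,
        U * f = g + ∑ i, c i * (a * z i.succ - b i)

/-- coordinate systems, at least two variables -/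
def GG {H : Type} [CommRing H] {k : ℕ} (z : Fin (k + 2) → H) : Prop :=
  ¬ isC (z 0) ∧ ¬ isC (z 1) ∧
    (∀ f : H, RR (z 0) f → ∃ c : H, isC c ∧ ∃ w : H, RR (z 0) w ∧ f = c + z 0 * w) ∧
    (∀ f : H, ∃ u : H, ¬ u = 0 ∧ DD z f u) ∧
    ∀ f u : H, (¬ u = 0 ∧ DD z f u) → (RR (z 0) f ∨ ∃ v : H, u = z 1 * v ∧ ∃ g : H,
      RR (z 0) g ∧ ∃ w : Fin (k + 1) → H, f = g + ∑ i, w i * z i.succ ∧ ∀ i, DD z (w i) v)

/-- coordinates, one variable -/
def G1 {H : Type} [CommRing H] (z : Fin 1 → H) : Prop :=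
  ¬ isC (z 0) ∧ ∀ f : H, ∃ c : H, isC c ∧ ∃ w : H, f = c + z 0 * w

variable {H : Type} [CommRing H] [FirstOrder.Ring.CompatibleRing H]

theorem dfn_isC {α : Type} {F : (α → H) → H} (hF : TD α F) : Dfn α (fun v => isC (F v)) := by
  unfold isC
  refine Dfn.or (Dfn.eq hF TD.zero) ?_
  apply Dfn.ex1
  exact Dfn.eq (TD.mul (hF.lift Sum.inl) (TD.var _)) TD.one

theorem dfn_UU {α : Type} {F G : (α → H) → H} (hF : TD α F) (hG : TD α G) :
    Dfn α (fun v => UU (F v) (G v)) := by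
  unfold UU
  refine Dfn.or ?_ ?_
  · apply Dfn.ex1
    exact Dfn.eq (hG.lift Sum.inl) (TD.mul (hF.lift Sum.inl) (TD.var _))
  · apply Dfn.ex1
    apply Dfn.ex1
    exact Dfn.eq (TD.mul ((hG.lift Sum.inl).lift Sum.inl) (TD.var _))
      (TD.add TD.one (TD.mul ((hF.lift Sum.inl).lift Sum.inl) (TD.var _)))

theorem dfn_RR {α : Type} {F G : (α → H) → H} (hF : TD α F) (hG : TD α G) :
    Dfn α (fun v => RR (F v) (G v)) := by
  unfold RR
  apply Dfn.all1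
  refine Dfn.imp (Dfn.and ?_ (dfn_UU (TD.var _) (hF.lift Sum.inl)))
    (dfn_UU (TD.var _) (hG.lift Sum.inl))
  apply Dfn.all1
  apply Dfn.all1
  exact Dfn.imp (Dfn.and (dfn_UU (TD.var _) (TD.var _)) (dfn_UU (TD.var _) (TD.var _)))
    (dfn_UU (TD.var _) (TD.add (TD.var _) (TD.var _)))

theorem dfn_DD {α : Type} {k : ℕ} {Z : Fin (k + 2) → (α → H) → H} {F U : (α → H) → H}
    (hZ : ∀ i, TD α (Z i)) (hF : TD α F) (hU : TD α U) :
    Dfn α (fun v => DD (fun i => Z i v) (F v) (U v)) := by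
  unfold DD
  apply Dfn.all1
  refine Dfn.imp (Dfn.and (dfn_RR ((hZ 0).lift Sum.inl) (TD.var _))
    (Dfn.not (Dfn.eq (TD.var _) TD.zero))) ?_
  apply Dfn.all
  refine Dfn.imp (Dfn.finAll fun i => dfn_RR (((hZ 0).lift Sum.inl).lift Sum.inl) (TD.var _)) ?_
  apply Dfn.ex1
  refine Dfn.and (dfn_RR ((((hZ 0).lift Sum.inl).lift Sum.inl).lift Sum.inl) (TD.var _)) ?_
  refine Dfn.and ?_ ?_
  · apply Dfn.ex1
    refine Dfn.eq ((((hU.lift Sum.inl).lift Sum.inl).lift Sum.inl).lift Sum.inl) ?_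
    refine TD.add (TD.var _) (TD.mul (TD.sub ?_ (TD.var _)) (TD.var _))
    exact ((((hZ 1).lift Sum.inl).lift Sum.inl).lift Sum.inl).lift Sum.inl
  · apply Dfn.ex1
    refine Dfn.and (dfn_RR (((((hZ 0).lift Sum.inl).lift Sum.inl).lift Sum.inl).lift Sum.inl)
      (TD.var _)) ?_
    apply Dfn.ex
    refine Dfn.eq (TD.mul (TD.var _)
      (((((hF.lift Sum.inl).lift Sum.inl).lift Sum.inl).lift Sum.inl).lift Sum.inl)) ?_
    refine TD.add (TD.var _) (TD.sum _ fun i => TD.mul (TD.var _) (TD.sub (TD.mul (TD.var _) ?_)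
      (TD.var _)))
    exact (((((hZ i.succ).lift Sum.inl).lift Sum.inl).lift Sum.inl).lift Sum.inl).lift Sum.inl

theorem dfn_GG {α : Type} {k : ℕ} {Z : Fin (k + 2) → (α → H) → H}
    (hZ : ∀ i, TD α (Z i)) :
    Dfn α (fun v => GG (fun i => Z i v)) := by
  unfold GG
  refine Dfn.and (Dfn.not (dfn_isC (hZ 0))) (Dfn.and (Dfn.not (dfn_isC (hZ 1)))
    (Dfn.and ?_ (Dfn.and ?_ ?_)))
  · apply Dfn.all1
    refine Dfn.imp (dfn_RR ((hZ 0).lift Sum.inl) (TD.var _)) ?_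
    apply Dfn.ex1
    refine Dfn.and (dfn_isC (TD.var _)) ?_
    apply Dfn.ex1
    refine Dfn.and (dfn_RR ((((hZ 0).lift Sum.inl).lift Sum.inl).lift Sum.inl) (TD.var _)) ?_
    refine Dfn.eq (TD.var _) (TD.add (TD.var _) (TD.mul ?_ (TD.var _)))
    exact (((hZ 0).lift Sum.inl).lift Sum.inl).lift Sum.inl
  · apply Dfn.all1
    apply Dfn.ex1
    refine Dfn.and (Dfn.not (Dfn.eq (TD.var _) TD.zero)) ?_
    exact dfn_DD (fun i => ((hZ i).lift Sum.inl).lift Sum.inl) (TD.var _) (TD.var _)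
  · apply Dfn.all1
    apply Dfn.all1
    refine Dfn.imp (Dfn.and (Dfn.not (Dfn.eq (TD.var _) TD.zero)) ?_) ?_
    · exact dfn_DD (fun i => ((hZ i).lift Sum.inl).lift Sum.inl) (TD.var _) (TD.var _)
    · refine Dfn.or (dfn_RR (((hZ 0).lift Sum.inl).lift Sum.inl) (TD.var _)) ?_
      apply Dfn.ex1
      refine Dfn.and (Dfn.eq (TD.var _) (TD.mul ((((hZ 1).lift Sum.inl).lift Sum.inl).lift Sum.inl) (TD.var _))) ?_
      apply Dfn.ex1
      refine Dfn.and (dfn_RR (((((hZ 0).lift Sum.inl).lift Sum.inl).lift Sum.inl).lift Sum.inl) (TD.var _)) ?_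
      apply Dfn.ex
      refine Dfn.and (Dfn.eq (TD.var _) (TD.add (TD.var _) (TD.sum _ fun i => TD.mul (TD.var _) ?_))) ?_
      · exact (((((hZ i.succ).lift Sum.inl).lift Sum.inl).lift Sum.inl).lift Sum.inl).lift Sum.inl
      · refine Dfn.finAll fun i => ?_
        refine dfn_DD (fun i => ?_) (TD.var _) (TD.var _)
        exact (((((hZ i).lift Sum.inl).lift Sum.inl).lift Sum.inl).lift Sum.inl).lift Sum.inl

theorem dfn_G1 {α : Type} {Z : Fin 1 → (α → H) → H}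
    (hZ : ∀ i, TD α (Z i)) :
    Dfn α (fun v => G1 (fun i => Z i v)) := by
  unfold G1
  refine Dfn.and (Dfn.not (dfn_isC (hZ 0))) ?_
  apply Dfn.all1
  apply Dfn.ex1
  refine Dfn.and (dfn_isC (TD.var _)) ?_
  apply Dfn.ex1
  refine Dfn.eq (TD.var _) (TD.add (TD.var _) (TD.mul ?_ (TD.var _)))
  exact (((hZ 0).lift Sum.inl).lift Sum.inl).lift Sum.inl

end Pool.Agent.TH177.LH
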