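import Pool.Agent.TH177.LH.Form

set_option autoImplicit false

namespace Pool.Agent.TH177.LH

variable {P H : Type} [Field P] [CommRing H] [IsDomain H] [Algebra P H]

theorem gen_GG (δ : H → ℕ) (hmul : ∀ a b : H, a ≠ 0 → b ≠ 0 → δ (a * b) = δ a + δ b)
    (hsub : ∀ (p : P) (a : H), δ (a - algebraMap P H p) ≤ δ a)
    (hC : ∀ c : H, isC c → ∃ p : P, algebraMap P H p = c)
    (h0 : ∀ a : H, ¬ isC a → 1 ≤ δ a)
    {k : ℕ} (z : Fin (k + 2) → H) (hz : GG z) :
    Algebra.adjoin P (Set.range z) = ⊤ := by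
  obtain ⟨hz0, hz1, hR, hD, hE⟩ := hz
  set S := Algebra.adjoin P (Set.range z) with hS
  have hzS : ∀ i, z i ∈ S := fun i => Algebra.subset_adjoin ⟨i, rfl⟩
  have hcS : ∀ c : H, isC c → c ∈ S := by
    intro c hc
    obtain ⟨p, rfl⟩ := hC c hc
    exact S.algebraMap_mem p
  have hne : ∀ a : H, ¬ isC a → a ≠ 0 := fun a ha h => ha (Or.inl h)
  have key1 : ∀ n : ℕ, ∀ f : H, δ f ≤ n → RR (z 0) f → f ∈ S := by
    intro n
    induction n with
    | zero =>
      intro f hf hRf
      obtain ⟨c, hc, w, hw, e⟩ := hR f hRf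
      by_cases hw0 : w = 0
      · rw [e, hw0, mul_zero, add_zero]; exact hcS c hc
      · exfalso
        obtain ⟨p, hp⟩ := hC c hc
        have h1 := hsub p f
        rw [hp, e, add_sub_cancel_left, hmul _ _ (hne _ hz0) hw0, ← e] at h1
        have := h0 _ hz0
        omega
    | succ n ih =>
      intro f hf hRf
      obtain ⟨c, hc, w, hw, e⟩ := hR f hRf
      by_cases hw0 : w = 0
      · rw [e, hw0, mul_zero, add_zero]; exact hcS c hc
      · obtain ⟨p, hp⟩ := hC c hc
        have h1 := hsub p f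
        rw [hp, e, add_sub_cancel_left, hmul _ _ (hne _ hz0) hw0, ← e] at h1
        have := h0 _ hz0
        rw [e]
        exact S.add_mem (hcS c hc) (S.mul_mem (hzS 0) (ih w (by omega) hw))
  have key2 : ∀ n : ℕ, ∀ f u : H, δ u ≤ n → u ≠ 0 → DD z f u → f ∈ S := by
    intro n
    induction n with
    | zero =>
      intro f u hu hu0 hDf
      rcases hE f u ⟨hu0, hDf⟩ with h | ⟨v, hv, -⟩
      · exact key1 _ f le_rfl h
      · exfalso
        have hv0 : v ≠ 0 := by rintro rfl; exact hu0 (by rw [hv, mul_zero])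
        rw [hv, hmul _ _ (hne _ hz1) hv0] at hu
        have := h0 _ hz1
        omega
    | succ n ih =>
      intro f u hu hu0 hDf
      rcases hE f u ⟨hu0, hDf⟩ with h | ⟨v, hv, g, hg, w, hw, hDw⟩
      · exact key1 _ f le_rfl h
      · have hv0 : v ≠ 0 := by rintro rfl; exact hu0 (by rw [hv, mul_zero])
        rw [hv, hmul _ _ (hne _ hz1) hv0] at hu
        have := h0 _ hz1
        rw [hw]
        refine S.add_mem (key1 _ g le_rfl hg) (S.sum_mem fun i _ => S.mul_mem ?_ (hzS _))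
        exact ih (w i) v (by omega) hv0 (hDw i)
  rw [eq_top_iff]
  intro f _
  obtain ⟨u, hu0, hu⟩ := hD f
  exact key2 _ f u le_rfl hu0 hu

theorem gen_G1 (δ : H → ℕ) (hmul : ∀ a b : H, a ≠ 0 → b ≠ 0 → δ (a * b) = δ a + δ b)
    (hsub : ∀ (p : P) (a : H), δ (a - algebraMap P H p) ≤ δ a)
    (hC : ∀ c : H, isC c → ∃ p : P, algebraMap P H p = c)
    (h0 : ∀ a : H, ¬ isC a → 1 ≤ δ a)
    (z : Fin 1 → H) (hz : G1 z) :
    Algebra.adjoin P (Set.range z) = ⊤ := by
  obtain ⟨hz0, hR⟩ := hz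
  set S := Algebra.adjoin P (Set.range z) with hS
  have hzS : ∀ i, z i ∈ S := fun i => Algebra.subset_adjoin ⟨i, rfl⟩
  have hcS : ∀ c : H, isC c → c ∈ S := by
    intro c hc
    obtain ⟨p, rfl⟩ := hC c hc
    exact S.algebraMap_mem p
  have hne : ∀ a : H, ¬ isC a → a ≠ 0 := fun a ha h => ha (Or.inl h)
  have key1 : ∀ n : ℕ, ∀ f : H, δ f ≤ n → f ∈ S := by
    intro n
    induction n with
    | zero =>
      intro f hf
      obtain ⟨c, hc, w, e⟩ := hR f
      by_cases hw0 : w = 0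
      · rw [e, hw0, mul_zero, add_zero]; exact hcS c hc
      · exfalso
        obtain ⟨p, hp⟩ := hC c hc
        have h1 := hsub p f
        rw [hp, e, add_sub_cancel_left, hmul _ _ (hne _ hz0) hw0, ← e] at h1
        have := h0 _ hz0
        omega
    | succ n ih =>
      intro f hf
      obtain ⟨c, hc, w, e⟩ := hR f
      by_cases hw0 : w = 0
      · rw [e, hw0, mul_zero, add_zero]; exact hcS c hc
      · obtain ⟨p, hp⟩ := hC c hc
        have h1 := hsub p f
        rw [hp, e, add_sub_cancel_left, hmul _ _ (hne _ hz0) hw0, ← e] at h1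
        have := h0 _ hz0
        rw [e]
        exact S.add_mem (hcS c hc) (S.mul_mem (hzS 0) (ih w (by omega)))
  rw [eq_top_iff]
  intro f _
  exact key1 _ f le_rfl

end Pool.Agent.TH177.LH
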