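import Pool.Agent.TH177.LH.Ver3

set_option autoImplicit false

namespace Pool.Agent.TH177.LH

open MvPolynomial

variable {P : Type} [Field P] {k : ℕ}

theorem isC_CC (c : P) : isC (C (Polynomial.C c) :
    MvPolynomial (Fin (k + 1)) (Polynomial P)) := by
  by_cases hc : c = 0
  · left; rw [hc]; simp
  · right
    refine ⟨C (Polynomial.C c⁻¹), ?_⟩
    rw [← C_mul, ← Polynomial.C_mul, mul_inv_cancel₀ hc]; simp

theorem GG_yy (P : Type) [Field P] (k : ℕ) : GG (yy P k) := by
  have hy0 : yy P k 0 = C Polynomial.X := rfl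
  have hy1 : yy P k 1 = X 0 := rfl
  have hys : ∀ i : Fin (k + 1), yy P k i.succ = X i := fun i => rfl
  refine ⟨?_, ?_, ?_, ?_, ?_⟩
  · rw [hy0]
    rintro (h | ⟨d, hd⟩)
    · exact Polynomial.X_ne_zero (MvPolynomial.C_eq_zero.1 h)
    · have h2 := congrArg (eval (fun _ => 0)) hd
      rw [map_mul, eval_C, map_one] at h2
      exact Polynomial.not_isUnit_X (IsUnit.of_mul_eq_one _ h2)
  · rw [hy1]
    rintro (h | ⟨d, hd⟩)
    · exact X_ne_zero 0 h
    · have h2 := congrArg (eval (fun _ => 0)) hd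
      rw [map_mul, eval_X, zero_mul, map_one] at h2
      exact zero_ne_one h2
  · intro f hf
    rw [hy0] at *
    obtain ⟨a, rfl⟩ := of_RR hf
    refine ⟨C (Polynomial.C (a.coeff 0)), isC_CC _, C a.divX, RR_C _, ?_⟩
    rw [← C_mul, ← C_add]
    congr 1
    rw [add_comm, mul_comm]
    exact (Polynomial.divX_mul_X_add a).symm
  · intro f
    refine ⟨Polynomial.aeval (X 0) (Polynomial.X ^ f.totalDegree * 1), ?_,
      DD_of _ f le_rfl 1⟩
    rw [mul_one, map_pow, Polynomial.aeval_X]
    exact pow_ne_zero _ (X_ne_zero 0)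
  · rintro f u ⟨hu, hD⟩
    rcases Nat.eq_zero_or_pos f.totalDegree with h0 | h1
    · left
      rw [totalDegree_eq_zero_iff_eq_C.1 h0, hy0]
      exact RR_C _
    · right
      obtain ⟨v, hv⟩ := of_DD hD hu _ rfl h1
      obtain ⟨g, w, hfw, hw⟩ := decomp f.totalDegree f le_rfl
      refine ⟨Polynomial.aeval (X 0) (Polynomial.X ^ (f.totalDegree - 1) * v), ?_, C g, ?_, w,
        hfw, fun i => DD_of _ (w i) (hw i) v⟩
      · rw [hv, hy1, map_mul, map_mul, map_pow, map_pow, Polynomial.aeval_X, ← mul_assoc,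
          ← pow_succ', Nat.sub_add_cancel h1]
      · rw [hy0]; exact RR_C _

theorem G1_X (P : Type) [Field P] : G1 (fun i : Fin 1 => (X i : MvPolynomial (Fin 1) P)) := by
  refine ⟨?_, ?_⟩
  · rintro (h | ⟨d, hd⟩)
    · exact X_ne_zero 0 h
    · have h2 := congrArg (eval (fun _ => 0)) hd
      rw [map_mul, eval_X, zero_mul, map_one] at h2
      exact zero_ne_one h2
  · intro f
    have h1 : ∃ c : P, ∃ w : MvPolynomial (Fin 1) P, f = C c + X 0 * w := by
      induction f using MvPolynomial.induction_on with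
      | C a => exact ⟨a, 0, by ring⟩
      | add p q hp hq =>
        obtain ⟨c, w, h⟩ := hp
        obtain ⟨c', w', h'⟩ := hq
        exact ⟨c + c', w + w', by rw [h, h', C_add]; ring⟩
      | mul_X p i hp =>
        have hi : i = 0 := Subsingleton.elim _ _
        exact ⟨0, p, by rw [hi, C_0]; ring⟩
    obtain ⟨c, w, hw⟩ := h1
    refine ⟨C c, ?_, w, hw⟩
    by_cases hc : c = 0
    · left; rw [hc]; simp
    · right
      exact ⟨C c⁻¹, by rw [← C_mul, mul_inv_cancel₀ hc]; simp⟩

end Pool.Agent.TH177.LH
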