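import Pool.Agent.TH177.LH.Gen
import Pool.Agent.TH177.LH.Ver4

set_option autoImplicit false

namespace Pool.Agent.TH177.LH

open MvPolynomial

theorem inj_of_surj {R : Type} [CommRing R] [IsNoetherianRing R] (f : R →+* R)
    (hf : Function.Surjective f) : Function.Injective f := by
  rw [injective_iff_map_eq_zero]
  intro x hx
  have hmono : ∀ n : ℕ, RingHom.ker (f ^ n) ≤ RingHom.ker (f ^ (n + 1)) := by
    intro n y hy
    rw [RingHom.mem_ker, RingHom.coe_pow] at *
    rw [Function.iterate_succ_apply', hy, map_zero]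
  obtain ⟨N, hN⟩ := monotone_stabilizes_iff_noetherian.2 (inferInstance : IsNoetherian R R)
    ⟨fun n => RingHom.ker (f ^ n), monotone_nat_of_le_succ hmono⟩
  obtain ⟨y, hy⟩ := (hf.iterate N) x
  have h1 : y ∈ RingHom.ker (f ^ (N + 1)) := by
    rw [RingHom.mem_ker, RingHom.coe_pow, Function.iterate_succ_apply', hy, hx]
  have h2 : RingHom.ker (f ^ N) = RingHom.ker (f ^ (N + 1)) := hN (N + 1) (Nat.le_succ N)
  rw [← h2, RingHom.mem_ker, RingHom.coe_pow, hy] at h1
  exact h1

section delta

variable {P H : Type} [Field P] [CommRing H] [Algebra P H] {m : ℕ}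
  (e : MvPolynomial (Fin m) P ≃ₐ[P] H)

theorem d_mul (a b : H) (ha : a ≠ 0) (hb : b ≠ 0) :
    (e.symm (a * b)).totalDegree = (e.symm a).totalDegree + (e.symm b).totalDegree := by
  rw [map_mul]
  exact totalDegree_mul_of_isDomain (by simpa using ha) (by simpa using hb)

theorem d_sub (p : P) (a : H) :
    (e.symm (a - algebraMap P H p)).totalDegree ≤ (e.symm a).totalDegree := by
  rw [map_sub, AlgEquiv.commutes]
  exact totalDegree_sub_C_le _ _

include e in
theorem d_C (c : H) (hc : isC c) : ∃ p : P, algebraMap P H p = c := by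
  rcases hc with rfl | ⟨d, hd⟩
  · exact ⟨0, map_zero _⟩
  · have h1 : e.symm c * e.symm d = 1 := by rw [← map_mul, hd, map_one]
    have h2 : IsUnit (e.symm c) := IsUnit.of_mul_eq_one _ h1
    rw [isUnit_iff_eq_C_of_isReduced] at h2
    obtain ⟨r, -, hr⟩ := h2
    refine ⟨r, ?_⟩
    rw [← e.commutes, MvPolynomial.algebraMap_eq, ← hr, AlgEquiv.apply_symm_apply]

theorem d_0 (a : H) (ha : ¬ isC a) : 1 ≤ (e.symm a).totalDegree := by
  by_contra hcon
  have h0 : (e.symm a).totalDegree = 0 := by omega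
  rw [totalDegree_eq_zero_iff_eq_C] at h0
  apply ha
  have h1 : a = algebraMap P H (coeff 0 (e.symm a)) := by
    rw [← e.commutes, MvPolynomial.algebraMap_eq, ← h0, AlgEquiv.apply_symm_apply]
  rw [h1]
  by_cases hc : coeff 0 (e.symm a) = 0
  · left; rw [hc, map_zero]
  · right
    exact ⟨algebraMap P H (coeff 0 (e.symm a))⁻¹, by
      rw [← map_mul, mul_inv_cancel₀ hc, map_one]⟩

end delta

theorem main_abs {P H : Type} [Field P] [CommRing H] [Algebra P H]
    [FirstOrder.Ring.CompatibleRing H] {m n : ℕ}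
    (e : MvPolynomial (Fin m) P ≃ₐ[P] H) (G : (Fin m → H) → Prop)
    (hG : ∀ (α : Type) (Z : Fin m → (α → H) → H), (∀ i, TD α (Z i)) →
      Dfn α (fun v => G (fun i => Z i v)))
    (hG1 : G (fun i => e (X i)))
    (hG2 : ∀ z : Fin m → H, G z → Algebra.adjoin P (Set.range z) = ⊤)
    (a b : Fin n → H)
    (hyp : ∀ φ : FirstOrder.Language.ring.Formula (Fin n ⊕ P),
      φ.Realize (Sum.elim a (algebraMap P H)) ↔ φ.Realize (Sum.elim b (algebraMap P H))) :
    ∃ σ : H ≃ₐ[P] H, ∀ i, σ (a i) = b i := by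
  obtain ⟨φ, hφ⟩ : Dfn (H := H) (Fin n ⊕ P) (fun v => ∃ z : Fin m → H, G z ∧
      ∀ i : Fin n, v (Sum.inl i) = ∑ s ∈ (e.symm (a i)).support,
        v (Sum.inr (coeff s (e.symm (a i)))) * ∏ j, z j ^ s j) := by
    apply Dfn.ex
    refine Dfn.and (hG _ _ fun i => TD.var _) (Dfn.finAll fun i => Dfn.eq (TD.var _) ?_)
    exact TD.sum _ fun s => TD.mul (TD.var _) (TD.prod _ fun j => TD.pow (TD.var _) _)
  have key : ∀ z : Fin m → H, ∀ i : Fin n, MvPolynomial.aeval z (e.symm (a i)) =
      ∑ s ∈ (e.symm (a i)).support,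
        algebraMap P H (coeff s (e.symm (a i))) * ∏ j, z j ^ s j := by
    intro z i
    rw [MvPolynomial.aeval_def, eval₂_eq']
  have ha : φ.Realize (Sum.elim a (algebraMap P H)) := by
    rw [hφ]
    refine ⟨fun i => e (X i), hG1, fun i => ?_⟩
    simp only [Sum.elim_inl, Sum.elim_inr]
    rw [← key]
    have : (MvPolynomial.aeval (fun i => e (X i)) : MvPolynomial (Fin m) P →ₐ[P] H) =
        (e : MvPolynomial (Fin m) P →ₐ[P] H) := by
      ext i; simp
    rw [this]
    simp
  have hb := (hyp φ).1 ha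
  rw [hφ] at hb
  obtain ⟨z, hz, hzb⟩ := hb
  simp only [Sum.elim_inl, Sum.elim_inr] at hzb
  have hsurj : Function.Surjective (MvPolynomial.aeval z : MvPolynomial (Fin m) P →ₐ[P] H) := by
    rw [← AlgHom.range_eq_top, ← Algebra.adjoin_range_eq_range_aeval, hG2 z hz]
  let σ0 : H →ₐ[P] H := (MvPolynomial.aeval z).comp (e.symm : H →ₐ[P] MvPolynomial (Fin m) P)
  have hσs : Function.Surjective σ0 := hsurj.comp e.symm.surjective
  have : IsNoetherianRing H :=
    isNoetherianRing_of_ringEquiv (MvPolynomial (Fin m) P) e.toRingEquiv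
  have hσi : Function.Injective σ0 := inj_of_surj (σ0 : H →+* H) hσs
  have hbij : Function.Bijective σ0 := ⟨hσi, hσs⟩
  refine ⟨AlgEquiv.ofBijective σ0 hbij, fun i => ?_⟩
  rw [hzb i, ← key]
  rfl

theorem main (P : Type) [Field P] (m n : ℕ) (a b : Fin n → MvPolynomial (Fin m) P)
    (hyp : ∀ φ : FirstOrder.Language.ring.Formula (Fin n ⊕ P),
        (@FirstOrder.Language.Formula.Realize FirstOrder.Language.ring (MvPolynomial (Fin m) P)
            (FirstOrder.Ring.compatibleRingOfRing (MvPolynomial (Fin m) P)).toStructure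
            (Fin n ⊕ P) φ (Sum.elim a (algebraMap P (MvPolynomial (Fin m) P))) ↔
          @FirstOrder.Language.Formula.Realize FirstOrder.Language.ring (MvPolynomial (Fin m) P)
            (FirstOrder.Ring.compatibleRingOfRing (MvPolynomial (Fin m) P)).toStructure
            (Fin n ⊕ P) φ (Sum.elim b (algebraMap P (MvPolynomial (Fin m) P))))) :
    ∃ σ : MvPolynomial (Fin m) P ≃ₐ[P] MvPolynomial (Fin m) P, ∀ i, σ (a i) = b i := by
  match m, a, b, hyp with
  | 0, a, b, hyp =>
    let _ := FirstOrder.Ring.compatibleRingOfRing (MvPolynomial (Fin 0) P)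
    refine main_abs (AlgEquiv.refl) (fun _ => (0 : MvPolynomial (Fin 0) P) = 0)
      (fun α Z _ => Dfn.eq TD.zero TD.zero) rfl (fun z _ => ?_) a b hyp
    rw [eq_top_iff]
    intro f _
    rw [MvPolynomial.eq_C_of_isEmpty f]
    exact Subalgebra.algebraMap_mem _ _
  | 1, a, b, hyp =>
    let _ := FirstOrder.Ring.compatibleRingOfRing (MvPolynomial (Fin 1) P)
    refine main_abs (AlgEquiv.refl) (fun z => G1 z)
      (fun α Z hZ => dfn_G1 hZ) (G1_X P) (fun z hz => ?_) a b hyp
    exact gen_G1 (P := P) (fun h => ((AlgEquiv.refl : MvPolynomial (Fin 1) P ≃ₐ[P] _).symm h).totalDegree)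
      (d_mul AlgEquiv.refl) (d_sub AlgEquiv.refl) (d_C AlgEquiv.refl) (d_0 AlgEquiv.refl) z hz
  | k + 2, a, b, hyp =>
    let _ := FirstOrder.Ring.compatibleRingOfRing (MvPolynomial (Fin (k + 2)) P)
    let _ := FirstOrder.Ring.compatibleRingOfRing
      (MvPolynomial (Fin (k + 1)) (Polynomial P))
    let e : MvPolynomial (Fin (k + 2)) P ≃ₐ[P] MvPolynomial (Fin (k + 1)) (Polynomial P) :=
      (renameEquiv P (_root_.finSuccEquiv (k + 1))).trans (optionEquivRight P (Fin (k + 1)))
    have he : (fun i => e (X i)) = yy P k := by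
      funext i
      refine Fin.cases ?_ (fun j => ?_) i
      · simp [e, yy]
      · simp [e, yy]
    have hyp' : ∀ φ : FirstOrder.Language.ring.Formula (Fin n ⊕ P),
        φ.Realize (Sum.elim (e ∘ a) (algebraMap P (MvPolynomial (Fin (k + 1)) (Polynomial P)))) ↔
        φ.Realize (Sum.elim (e ∘ b)
          (algebraMap P (MvPolynomial (Fin (k + 1)) (Polynomial P)))) := by
      intro φ
      have h1 : ∀ c : Fin n → MvPolynomial (Fin (k + 2)) P,
          Sum.elim (e ∘ c) (algebraMap P (MvPolynomial (Fin (k + 1)) (Polynomial P))) =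
          (FirstOrder.Ring.languageEquivEquivRingEquiv.symm e.toRingEquiv) ∘
            (Sum.elim c (algebraMap P (MvPolynomial (Fin (k + 2)) P))) := by
        intro c
        funext x
        rcases x with x | x
        · rfl
        · exact (e.commutes x).symm
      rw [h1 a, h1 b, FirstOrder.Language.StrongHomClass.realize_formula,
        FirstOrder.Language.StrongHomClass.realize_formula]
      exact hyp φ
    obtain ⟨σ, hσ⟩ := main_abs e (fun z => GG z) (fun α Z hZ => dfn_GG hZ)
      (by rw [he]; exact GG_yy P k)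
      (fun z hz => gen_GG (P := P) (fun h => (e.symm h).totalDegree)
        (d_mul e) (d_sub e) (d_C e) (d_0 e) z hz) (e ∘ a) (e ∘ b) hyp'
    refine ⟨(e.trans σ).trans e.symm, fun i => ?_⟩
    have := hσ i
    simp only [Function.comp] at this
    simp [this]

end Pool.Agent.TH177.LH
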