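import Pool.Agent.TH177.LH.Form

set_option autoImplicit false

namespace Pool.Agent.TH177.LH

open MvPolynomial

theorem UU_mul {H : Type} [CommRing H] {π a b : H} (ha : UU π a) (hb : UU π b) :
    UU π (a * b) := by
  rcases ha with ⟨q, hq⟩ | ⟨d, q, hq⟩
  · exact Or.inl ⟨q * b, by rw [hq]; ring⟩
  · rcases hb with ⟨q', hq'⟩ | ⟨d', q', hq'⟩
    · exact Or.inl ⟨q' * a, by rw [hq']; ring⟩
    · refine Or.inr ⟨d * d', q + q' + π * q * q', ?_⟩
      calc a * b * (d * d') = (a * d) * (b * d') := by ring
        _ = _ := by rw [hq, hq']; ring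

variable {P : Type} [Field P] {k : ℕ}

theorem UU_iff {p : Polynomial P} (hp : Irreducible p)
    (h : MvPolynomial (Fin (k + 1)) (Polynomial P)) :
    UU (C p) h ↔ ∀ β : Fin (k + 1) →₀ ℕ, β ≠ 0 → p ∣ coeff β h := by
  constructor
  · rintro (⟨q, hq⟩ | ⟨d, q, hq⟩) β hβ
    · rw [hq, coeff_C_mul]; exact dvd_mul_right _ _
    · have : (Ideal.span {p} : Ideal (Polynomial P)).IsPrime :=
        (Ideal.span_singleton_prime hp.ne_zero).2 hp.prime
      let ψ : MvPolynomial (Fin (k + 1)) (Polynomial P) →+*
        MvPolynomial (Fin (k + 1)) (Polynomial P ⧸ (Ideal.span {p} : Ideal (Polynomial P))) :=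
        MvPolynomial.map (Ideal.Quotient.mk _)
      have h1 : ψ h * ψ d = 1 := by
        rw [← map_mul, hq, map_add, map_one, map_mul]
        have : ψ (C p) = 0 := by
          simp only [ψ, map_C]
          rw [(Ideal.Quotient.eq_zero_iff_mem (I := Ideal.span {p})).2
            (Ideal.mem_span_singleton_self p), C_0]
        rw [this, zero_mul, add_zero]
      have h2 : IsUnit (ψ h) := IsUnit.of_mul_eq_one _ h1
      rw [MvPolynomial.isUnit_iff_eq_C_of_isReduced] at h2
      obtain ⟨r, -, hr⟩ := h2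
      have h3 : coeff β (ψ h) = 0 := by
        rw [hr, coeff_C, if_neg (fun e => hβ e.symm)]
      simp only [ψ, coeff_map] at h3
      rw [Ideal.Quotient.eq_zero_iff_mem, Ideal.mem_span_singleton] at h3
      exact h3
  · intro hh
    by_cases h0 : p ∣ coeff 0 h
    · left
      have : C p ∣ h := by
        rw [C_dvd_iff_dvd_coeff]
        intro i
        by_cases hi : i = 0
        · rw [hi]; exact h0
        · exact hh i hi
      exact this
    · right
      obtain ⟨u, v, huv⟩ : IsCoprime p (coeff 0 h) := (hp.coprime_iff_not_dvd).2 h0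
      have : C p ∣ h * C v - 1 := by
        rw [C_dvd_iff_dvd_coeff]
        intro i
        rw [coeff_sub, mul_comm h, coeff_C_mul]
        by_cases hi : i = 0
        · rw [hi, coeff_zero_one]
          exact ⟨-u, by linear_combination huv⟩
        · rw [show coeff i (1 : MvPolynomial (Fin (k + 1)) (Polynomial P)) = 0 by
            rw [coeff_one, if_neg (fun e => hi e.symm)], sub_zero]
          exact (hh i hi).mul_left _
      obtain ⟨q, hq⟩ := this
      exact ⟨C v, q, by rw [← hq]; ring⟩

theorem RR_C (a : Polynomial P) :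
    RR (C Polynomial.X : MvPolynomial (Fin (k + 1)) (Polynomial P)) (C a) := by
  intro π hπ
  obtain ⟨hadd, ht⟩ := hπ
  have hconst : ∀ c : P, UU π (C (Polynomial.C c) :
      MvPolynomial (Fin (k + 1)) (Polynomial P)) := by
    intro c
    by_cases hc : c = 0
    · left; exact ⟨0, by rw [hc]; simp⟩
    · right
      refine ⟨C (Polynomial.C c⁻¹), 0, ?_⟩
      rw [← C_mul, ← Polynomial.C_mul, mul_inv_cancel₀ hc]; simp
  have hX : ∀ n : ℕ, UU π (C (Polynomial.X ^ n) :
      MvPolynomial (Fin (k + 1)) (Polynomial P)) := by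
    intro n
    induction n with
    | zero => simpa using hconst 1
    | succ n ih => rw [pow_succ, C_mul]; exact UU_mul ih ht
  induction a using Polynomial.induction_on' with
  | add p q hp hq => rw [C_add]; exact hadd _ _ ⟨hp, hq⟩
  | monomial n c =>
    rw [← Polynomial.C_mul_X_pow_eq_monomial, C_mul]
    exact UU_mul (hconst c) (hX n)

theorem of_RR {f : MvPolynomial (Fin (k + 1)) (Polynomial P)} (hf : RR (C Polynomial.X) f) :
    ∃ a : Polynomial P, f = C a := by
  refine ⟨coeff 0 f, ?_⟩
  by_contra hne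
  have : ∃ β : Fin (k + 1) →₀ ℕ, β ≠ 0 ∧ coeff β f ≠ 0 := by
    by_contra hcon
    push Not at hcon
    apply hne
    ext1 β
    rw [coeff_C]
    split_ifs with h
    · rw [h]
    · exact hcon β (fun e => h e.symm)
  obtain ⟨β, hβ, hc⟩ := this
  set c := coeff β f with hcdef
  have hdeg : (Polynomial.X * c + 1).natDegree = c.natDegree + 1 := by
    rw [show (1 : Polynomial P) = Polynomial.C 1 from rfl, Polynomial.natDegree_add_C,
      Polynomial.natDegree_X_mul hc]
  have hnu : ¬ IsUnit (Polynomial.X * c + 1) := by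
    intro hu
    have := Polynomial.natDegree_eq_zero_of_isUnit hu
    omega
  have hn0 : Polynomial.X * c + 1 ≠ 0 := by
    intro h
    rw [h] at hdeg
    simp at hdeg
  obtain ⟨p, hp, hpd⟩ := WfDvdMonoid.exists_irreducible_factor hnu hn0
  have h1 := hf (C p) ⟨fun a b hab => by
    refine (UU_iff hp (a + b)).2 ?_
    intro β hβ
    rw [coeff_add]
    exact dvd_add ((UU_iff hp a).1 hab.1 β hβ) ((UU_iff hp b).1 hab.2 β hβ), by
    rw [UU_iff hp]
    intro β hβ
    rw [coeff_C, if_neg (fun e => hβ e.symm)]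
    exact dvd_zero _⟩
  rw [UU_iff hp] at h1
  have h2 : p ∣ c := h1 β hβ
  have h3 : p ∣ 1 := (dvd_add_right (h2.mul_left Polynomial.X)).1 hpd
  exact hp.not_isUnit (isUnit_of_dvd_one h3)

/-- the standard coordinate system -/
noncomputable def yy (P : Type) [Field P] (k : ℕ) :
    Fin (k + 2) → MvPolynomial (Fin (k + 1)) (Polynomial P) :=
  Fin.cons (C Polynomial.X) (fun i => X i)

end Pool.Agent.TH177.LH
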