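import Pool.Agent.TH177.LH.Ver

set_option autoImplicit false

namespace Pool.Agent.TH177.LH

open MvPolynomial

variable {P : Type} [Field P] {k : ℕ}

theorem mon_aux {Q : Type} [CommRing Q]
    (φ : MvPolynomial (Fin (k + 1)) (Polynomial P) →+* Q) (a : Polynomial P)
    (b : Fin (k + 1) → Polynomial P) (hφ : ∀ i, φ (C a * X i) = φ (C (b i)))
    (N : ℕ) (s : Fin (k + 1) →₀ ℕ) (c : Polynomial P) (hdeg : ∑ i, s i ≤ N) :
    φ (C (a ^ N) * monomial s c) = φ (C (a ^ (N - ∑ i, s i) * c * ∏ i, b i ^ s i)) := by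
  have e1 : (C (a ^ N) * monomial s c :
      MvPolynomial (Fin (k + 1)) (Polynomial P)) =
      C (a ^ (N - ∑ i, s i) * c) * ∏ i, (C a * X i) ^ s i := by
    rw [monomial_eq, Finsupp.prod_fintype _ _ (fun _ => pow_zero _)]
    simp_rw [mul_pow]
    rw [Finset.prod_mul_distrib, Finset.prod_pow_eq_pow_sum, C_mul, ← C_pow (a := a)]
    have : (a ^ N) = a ^ (N - ∑ i, s i) * a ^ (∑ i, s i) := by
      rw [← pow_add, Nat.sub_add_cancel hdeg]
    rw [this, C_mul]
    ring
  rw [e1, map_mul, map_prod, C_mul (a := a ^ (N - ∑ i, s i) * c), map_mul φ]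
  congr 1
  rw [map_prod C, map_prod φ]
  refine Finset.prod_congr rfl fun i _ => ?_
  rw [map_pow, hφ i, C_pow, map_pow]

theorem homog_mem' (I : Ideal (MvPolynomial (Fin (k + 1)) (Polynomial P)))
    (a : Polynomial P) (b : Fin (k + 1) → Polynomial P)
    (hI : ∀ i, (C a * X i - C (b i) : MvPolynomial (Fin (k + 1)) (Polynomial P)) ∈ I) (N : ℕ)
    (f : MvPolynomial (Fin (k + 1)) (Polynomial P)) (hf : f.totalDegree ≤ N) :
    ∃ g : Polynomial P, C (a ^ N) * f - C g ∈ I := by
  have hmk : ∀ i, Ideal.Quotient.mk I (C a * X i) = Ideal.Quotient.mk I (C (b i)) := by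
    intro i
    rw [Ideal.Quotient.eq]
    exact hI i
  have hmon : ∀ s ∈ f.support, ∃ g : Polynomial P,
      C (a ^ N) * monomial s (coeff s f) - C g ∈ I := by
    intro s hs
    have hdeg : ∑ i, s i ≤ N := by
      refine le_trans ?_ hf
      have := le_totalDegree hs
      rw [Finsupp.sum_fintype _ _ (fun _ => rfl)] at this
      exact this
    refine ⟨a ^ (N - ∑ i, s i) * coeff s f * ∏ i, b i ^ s i, ?_⟩
    rw [← Ideal.Quotient.eq]
    exact mon_aux (Q := MvPolynomial (Fin (k + 1)) (Polynomial P) ⧸ I)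
      (Ideal.Quotient.mk I) a b hmk N s (coeff s f) hdeg
  choose! g hg using hmon
  refine ⟨∑ s ∈ f.support, g s, ?_⟩
  have : C (a ^ N) * f - C (∑ s ∈ f.support, g s) =
      ∑ s ∈ f.support, (C (a ^ N) * monomial s (coeff s f) - C (g s)) := by
    rw [Finset.sum_sub_distrib, ← Finset.mul_sum, support_sum_monomial_coeff, map_sum]
  rw [this]
  exact I.sum_mem fun s hs => hg s hs

theorem homog_mem (a : Polynomial P) (b : Fin (k + 1) → Polynomial P) (N : ℕ)
    (f : MvPolynomial (Fin (k + 1)) (Polynomial P)) (hf : f.totalDegree ≤ N) :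
    ∃ g : Polynomial P, C (a ^ N) * f - C g ∈
      Ideal.span (Set.range (fun i : Fin (k + 1) =>
        (C a * X i - C (b i) : MvPolynomial (Fin (k + 1)) (Polynomial P)))) :=
  homog_mem' _ a b (fun i => Ideal.subset_span (Set.mem_range_self i)) N f hf

theorem DD_of (N : ℕ) (f : MvPolynomial (Fin (k + 1)) (Polynomial P)) (hf : f.totalDegree ≤ N)
    (v : Polynomial (Polynomial P)) :
    DD (yy P k) f (Polynomial.aeval (X 0) (Polynomial.X ^ N * v)) := by
  intro a ha b hb
  have hy0 : yy P k 0 = C Polynomial.X := rfl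
  have hy1 : yy P k 1 = X 0 := rfl
  have hys : ∀ i : Fin (k + 1), yy P k i.succ = X i := fun i => rfl
  rw [hy0] at *
  simp only [hy1, hys] at *
  obtain ⟨ha, -⟩ := ha
  obtain ⟨a, rfl⟩ := of_RR ha
  choose b' hb' using fun i => of_RR (hb i)
  obtain rfl : b = fun i => C (b' i) := funext hb'
  set w := Polynomial.X ^ N * v with hw
  refine ⟨C (w.eval a), RR_C _, ?_, ?_⟩
  · have h1 : (X 0 - C a : MvPolynomial (Fin (k + 1)) (Polynomial P)) ∣
        (w.map C).eval (X 0) - (w.map C).eval (C a) :=
      Polynomial.sub_dvd_eval_sub _ _ _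
    obtain ⟨q, hq⟩ := h1
    refine ⟨q, ?_⟩
    rw [← hq, Polynomial.eval_map_apply, Polynomial.aeval_def, Polynomial.eval_map]
    rw [show (algebraMap (Polynomial P) (MvPolynomial (Fin (k + 1)) (Polynomial P))) = C from rfl]
    ring
  · obtain ⟨g, hg⟩ := homog_mem a b' N f hf
    rw [Ideal.mem_span_range_iff_exists_fun] at hg
    obtain ⟨c, hc⟩ := hg
    refine ⟨C (v.eval a * g), RR_C _, fun i => C (v.eval a) * c i, ?_⟩
    have : ∑ i, C (v.eval a) * c i * (C a * X i - C (b' i)) =
        C (v.eval a) * ∑ i, c i * (C a * X i - C (b' i)) := by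
      rw [Finset.mul_sum]
      exact Finset.sum_congr rfl fun i _ => by ring
    rw [this, hc, hw, Polynomial.eval_mul, Polynomial.eval_pow, Polynomial.eval_X, C_mul, C_mul]
    ring

theorem decomp (n : ℕ) (f : MvPolynomial (Fin (k + 1)) (Polynomial P)) (hf : f.totalDegree ≤ n) :
    ∃ g : Polynomial P, ∃ w : Fin (k + 1) → MvPolynomial (Fin (k + 1)) (Polynomial P),
      f = C g + ∑ i, w i * X i ∧ ∀ i, (w i).totalDegree ≤ n - 1 := by
  classical
  have hmon : ∀ s ∈ f.support, ∃ g : Polynomial P,
      ∃ w : Fin (k + 1) → MvPolynomial (Fin (k + 1)) (Polynomial P),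
      monomial s (coeff s f) = C g + ∑ i, w i * X i ∧ ∀ i, (w i).totalDegree ≤ n - 1 := by
    intro s hs
    have hdeg : ∑ i, s i ≤ n := by
      refine le_trans ?_ hf
      have := le_totalDegree hs
      rw [Finsupp.sum_fintype _ _ (fun _ => rfl)] at this
      exact this
    by_cases h0 : s = 0
    · refine ⟨coeff s f, fun _ => 0, ?_, fun i => by simp⟩
      rw [h0]; simp
    · obtain ⟨i0, hi0⟩ : ∃ i, s i ≠ 0 := by
        by_contra hcon
        push Not at hcon
        exact h0 (Finsupp.ext hcon)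
      have hs' : (s - Finsupp.single i0 1) + Finsupp.single i0 1 = s := by
        ext j
        by_cases hj : j = i0
        · subst hj
          simp only [Finsupp.coe_add, Finsupp.coe_tsub, Pi.add_apply, Pi.sub_apply,
            Finsupp.single_eq_same]
          omega
        · simp [Ne.symm hj]
      refine ⟨0, Pi.single i0 (monomial (s - Finsupp.single i0 1) (coeff s f)), ?_, ?_⟩
      · rw [C_0, zero_add, Finset.sum_eq_single i0]
        · rw [Pi.single_eq_same, X, monomial_mul, hs', mul_one]
        · intro j _ hj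
          rw [Pi.single_eq_of_ne hj, zero_mul]
        · intro h; exact absurd (Finset.mem_univ _) h
      · intro i
        by_cases hi : i = i0
        · subst hi
          rw [Pi.single_eq_same]
          refine le_trans (totalDegree_monomial_le _ _) ?_
          rw [Finsupp.sum_fintype _ _ (fun _ => rfl)]
          have h2 : ∑ j, (s - Finsupp.single i 1 : Fin (k + 1) →₀ ℕ) j + 1 = ∑ j, s j := by
            conv_rhs => rw [← hs']
            simp only [Finsupp.coe_add, Pi.add_apply]
            rw [Finset.sum_add_distrib]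
            congr 1
            simp [Finsupp.single_apply]
          simp only [id] at *
          omega
        · rw [Pi.single_eq_of_ne hi]; simp
  choose! g w hg hw using hmon
  refine ⟨∑ s ∈ f.support, g s, fun i => ∑ s ∈ f.support, w s i, ?_, ?_⟩
  · conv_lhs => rw [← support_sum_monomial_coeff f]
    rw [Finset.sum_congr rfl hg, Finset.sum_add_distrib, map_sum, Finset.sum_comm]
    congr 1
    exact Finset.sum_congr rfl fun i _ => by rw [Finset.sum_mul]
  · intro i
    refine le_trans (totalDegree_finsetSum _ _) ?_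
    exact Finset.sup_le fun s hs => hw s hs i

end Pool.Agent.TH177.LH
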