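import Pool.Agent.TH177.LH.Ver2

set_option autoImplicit false

namespace Pool.Agent.TH177.LH

open MvPolynomial

variable {P : Type} [Field P] {k : ℕ}

theorem eval_aeval_X0 (w : Polynomial (Polynomial P)) (p : Fin (k + 1) → Polynomial P) :
    eval p (Polynomial.aeval (X 0 : MvPolynomial (Fin (k + 1)) (Polynomial P)) w) =
      w.eval (p 0) := by
  rw [Polynomial.aeval_def, Polynomial.hom_eval₂, eval_X]
  have : (eval p).comp (algebraMap (Polynomial P)
      (MvPolynomial (Fin (k + 1)) (Polynomial P))) = RingHom.id _ := by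
    ext x <;> simp
  rw [this, Polynomial.eval₂_id]

/-- substitution `X 0 ↦ X`, others to zero -/
noncomputable def rho (u : MvPolynomial (Fin (k + 1)) (Polynomial P)) :
    Polynomial (Polynomial P) :=
  MvPolynomial.aeval (fun i : Fin (k + 1) => if i = 0 then Polynomial.X else 0) u

theorem rho_eval (a U0 : Polynomial P) (u q : MvPolynomial (Fin (k + 1)) (Polynomial P))
    (h : u = C U0 + (X 0 - C a) * q) : (rho u).eval a = U0 := by
  rw [h, rho, map_add, map_mul, map_sub, MvPolynomial.aeval_X, MvPolynomial.aeval_C,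
    MvPolynomial.aeval_C, if_pos rfl]
  simp

/-- homogenised evaluation -/
noncomputable def hsum (f : MvPolynomial (Fin (k + 1)) (Polynomial P)) (n : ℕ)
    (a : Polynomial P) (b : Fin (k + 1) → Polynomial P) : Polynomial P :=
  ∑ s ∈ f.support, coeff s f * a ^ (n - ∑ i, s i) * ∏ i, b i ^ s i

theorem hsum_dvd (f : MvPolynomial (Fin (k + 1)) (Polynomial P)) (n : ℕ)
    (hf : f.totalDegree ≤ n)
    (a : Polynomial P) (b : Fin (k + 1) → Polynomial P) :
    a ∣ hsum f n a b - eval b (homogeneousComponent n f) := by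
  classical
  rw [homogeneousComponent_apply, map_sum, Finset.sum_filter, hsum, ← Finset.sum_sub_distrib]
  refine Finset.dvd_sum fun s hs => ?_
  have hdeg : ∑ i, s i ≤ n := by
    refine le_trans ?_ hf
    have := le_totalDegree hs
    rw [Finsupp.sum_fintype _ _ (fun _ => rfl)] at this
    exact this
  have hd : s.degree = ∑ i, s i := by
    rw [Finsupp.degree_eq_sum]
  rw [hd]
  split_ifs with h
  · rw [h, Nat.sub_self, pow_zero, mul_one, eval_monomial,
      Finsupp.prod_fintype _ _ (fun _ => pow_zero _), sub_self]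
    exact dvd_zero _
  · rw [sub_zero]
    have : n - ∑ i, s i = (n - ∑ i, s i - 1) + 1 := by omega
    rw [this, pow_succ]
    exact ⟨coeff s f * a ^ (n - ∑ i, s i - 1) * ∏ i, b i ^ s i, by ring⟩

theorem hsum_eval {K : Type} [Field K] [Algebra (Polynomial P) K]
    (f : MvPolynomial (Fin (k + 1)) (Polynomial P)) (n : ℕ)
    (hf : f.totalDegree ≤ n)
    (a : Polynomial P) (b : Fin (k + 1) → Polynomial P)
    (ha : algebraMap (Polynomial P) K a ≠ 0) :
    algebraMap (Polynomial P) K (hsum f n a b) =
      algebraMap (Polynomial P) K a ^ n *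
        eval₂Hom (algebraMap (Polynomial P) K)
          (fun i => algebraMap (Polynomial P) K (b i) / algebraMap (Polynomial P) K a) f := by
  rw [coe_eval₂Hom, eval₂_eq', hsum, map_sum, Finset.mul_sum]
  refine Finset.sum_congr rfl fun s hs => ?_
  have hdeg : ∑ i, s i ≤ n := by
    refine le_trans ?_ hf
    have := le_totalDegree hs
    rw [Finsupp.sum_fintype _ _ (fun _ => rfl)] at this
    exact this
  rw [map_mul, map_mul, map_prod, map_pow]
  simp_rw [map_pow, div_pow]
  rw [Finset.prod_div_distrib, Finset.prod_pow_eq_pow_sum]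
  have : algebraMap (Polynomial P) K a ^ n =
      algebraMap (Polynomial P) K a ^ (n - ∑ i, s i) * algebraMap (Polynomial P) K a ^ (∑ i, s i) := by
    rw [← pow_add, Nat.sub_add_cancel hdeg]
  rw [this]
  field_simp

theorem of_DD {f u : MvPolynomial (Fin (k + 1)) (Polynomial P)} (h : DD (yy P k) f u)
    (hu : u ≠ 0) (n : ℕ) (hn : f.totalDegree = n) (hn1 : 1 ≤ n) :
    ∃ v : Polynomial (Polynomial P), u = Polynomial.aeval (X 0) (Polynomial.X ^ n * v) := by
  have hy0 : yy P k 0 = C Polynomial.X := rfl
  have hy1 : yy P k 1 = X 0 := rfl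
  have hys : ∀ i : Fin (k + 1), yy P k i.succ = X i := fun i => rfl
  have h' : ∀ a : Polynomial P, a ≠ 0 → ∀ b : Fin (k + 1) → Polynomial P,
      ∃ U0 : Polynomial P, (∃ q, u = C U0 + (X 0 - C a) * q) ∧
        ∃ g0 : Polynomial P, ∃ c : Fin (k + 1) → MvPolynomial (Fin (k + 1)) (Polynomial P),
          C U0 * f = C g0 + ∑ i, c i * (C a * X i - C (b i)) := by
    intro a ha b
    obtain ⟨U, hU, hq, g, hg, c, hc⟩ := h (C a) ⟨by rw [hy0]; exact RR_C a,
      fun h0 => ha (MvPolynomial.C_eq_zero.1 h0)⟩ (fun i => C (b i))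
      (fun i => by rw [hy0]; exact RR_C _)
    rw [hy0] at hU hg
    obtain ⟨U0, rfl⟩ := of_RR hU
    obtain ⟨g0, rfl⟩ := of_RR hg
    exact ⟨U0, hq, g0, c, hc⟩
  have hrho : u = Polynomial.aeval (X 0) (rho u) := by
    have hz : X 0 * (u - Polynomial.aeval (X 0) (rho u)) = 0 := by
      apply MvPolynomial.funext
      intro p
      rw [map_mul, eval_X, map_sub, eval_aeval_X0, map_zero]
      by_cases hp : p 0 = 0
      · rw [hp, zero_mul]
      · obtain ⟨U0, ⟨q, hq⟩, -⟩ := h' (p 0) hp (fun _ => 0)
        rw [rho_eval (p 0) U0 u q hq]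
        have : eval p u = U0 := by rw [hq]; simp
        rw [this, sub_self, mul_zero]
    rcases mul_eq_zero.1 hz with h1 | h1
    · exact absurd h1 (X_ne_zero 0)
    · exact sub_eq_zero.1 h1
  have hr0 : rho u ≠ 0 := by
    intro h0
    apply hu
    rw [hrho, h0, map_zero]
  obtain ⟨w, hw, hwd⟩ := Polynomial.exists_eq_pow_rootMultiplicity_mul_and_not_dvd (rho u) hr0 0
  rw [Polynomial.C_0, sub_zero] at hw hwd
  set N := Polynomial.rootMultiplicity 0 (rho u) with hN
  have hw0 : w.eval 0 ≠ 0 := by
    intro h0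
    apply hwd
    rw [Polynomial.X_dvd_iff, Polynomial.coeff_zero_eq_eval_zero]
    exact h0
  by_cases hnN : n ≤ N
  · refine ⟨Polynomial.X ^ (N - n) * w, ?_⟩
    rw [← mul_assoc, ← pow_add, Nat.add_sub_cancel' hnN, ← hw]
    exact hrho
  exfalso
  push Not at hnN
  have hF0 : homogeneousComponent n f ≠ 0 := by
    intro h0
    have hf0 : f ≠ 0 := by
      rintro rfl
      rw [totalDegree_zero] at hn
      omega
    obtain ⟨s, hs, hsd⟩ : ∃ s ∈ f.support, s.degree = n := by
      have hne : f.support.Nonempty := by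
        rw [Finset.nonempty_iff_ne_empty, Ne, support_eq_empty]; exact hf0
      obtain ⟨s, hs, hsup⟩ := Finset.exists_mem_eq_sup f.support hne
        (fun s => s.sum fun _ e => e)
      refine ⟨s, hs, ?_⟩
      rw [← hn, totalDegree, hsup]
      rfl
    have := coeff_homogeneousComponent (n := n) (φ := f) s
    rw [h0, if_pos hsd, coeff_zero] at this
    exact (mem_support_iff.1 hs) this.symm
  obtain ⟨b, hb⟩ : ∃ b : Fin (k + 1) → Polynomial P,
      eval b (homogeneousComponent n f) ≠ 0 := by
    by_contra hcon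
    push Not at hcon
    apply hF0
    apply MvPolynomial.funext
    intro p
    rw [hcon p, map_zero]
  set c0 := w.eval 0 * eval b (homogeneousComponent n f) with hc0
  have hc0' : c0 ≠ 0 := mul_ne_zero hw0 hb
  set a : Polynomial P := Polynomial.X ^ (c0.natDegree + 1) with ha
  have ha0 : a ≠ 0 := pow_ne_zero _ Polynomial.X_ne_zero
  clear_value a
  obtain ⟨U0, ⟨q, hq⟩, g0, c, hc⟩ := h' a ha0 b
  have hU0 : U0 = a ^ N * w.eval a := by
    rw [← rho_eval a U0 u q hq]
    conv_lhs => rw [hw]
    simp
  have haK : algebraMap (Polynomial P) (FractionRing (Polynomial P)) a ≠ 0 := by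
    rw [Ne, FaithfulSMul.algebraMap_eq_zero_iff]; exact ha0
  have hid : U0 * hsum f n a b = a ^ n * g0 := by
    apply IsFractionRing.injective (Polynomial P) (FractionRing (Polynomial P))
    rw [map_mul, hsum_eval (K := FractionRing (Polynomial P)) f n hn.le a b haK, map_mul,
      map_pow (algebraMap (Polynomial P) (FractionRing (Polynomial P))) a n]
    have h2 := congrArg (eval₂Hom (algebraMap (Polynomial P) (FractionRing (Polynomial P)))
          (fun i => algebraMap (Polynomial P) (FractionRing (Polynomial P)) (b i) /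
            algebraMap (Polynomial P) (FractionRing (Polynomial P)) a)) hc
    rw [map_mul, map_add, map_sum] at h2
    have h3 : ∀ i, (eval₂Hom (algebraMap (Polynomial P) (FractionRing (Polynomial P)))
          (fun i => algebraMap (Polynomial P) (FractionRing (Polynomial P)) (b i) /
            algebraMap (Polynomial P) (FractionRing (Polynomial P)) a))
            (c i * (C a * X i - C (b i))) = 0 := by
      intro i
      rw [map_mul, map_sub, map_mul]
      simp only [eval₂Hom_C, eval₂Hom_X']
      rw [mul_div_cancel₀ _ haK, sub_self, mul_zero]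
    rw [Finset.sum_congr rfl (fun i _ => h3 i), Finset.sum_const_zero, add_zero] at h2
    simp only [eval₂Hom_C] at h2
    rw [← h2]
    ring
  have hcancel : w.eval a * hsum f n a b = a ^ (n - N) * g0 := by
    have : a ^ N * (w.eval a * hsum f n a b) = a ^ N * (a ^ (n - N) * g0) := by
      rw [← mul_assoc, ← hU0, hid, ← mul_assoc, ← pow_add, Nat.add_sub_cancel' hnN.le]
    exact mul_left_cancel₀ (pow_ne_zero _ ha0) this
  have d1 : a ∣ w.eval a * hsum f n a b := by
    rw [hcancel]
    exact (dvd_pow_self a (by omega)).mul_right _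
  have d2 : a ∣ w.eval a - w.eval 0 := by
    have := Polynomial.sub_dvd_eval_sub a 0 w
    rwa [sub_zero] at this
  have d3 := hsum_dvd f n hn.le a b
  have d4 : a ∣ c0 := by
    have e : c0 = w.eval a * hsum f n a b - (w.eval a - w.eval 0) * hsum f n a b
        - w.eval 0 * (hsum f n a b - eval b (homogeneousComponent n f)) := by
      rw [hc0]; ring
    rw [e]
    exact dvd_sub (dvd_sub d1 (d2.mul_right _)) (d3.mul_left _)
  have := Polynomial.natDegree_le_of_dvd d4 hc0'
  rw [ha, Polynomial.natDegree_X_pow] at this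
  omega

end Pool.Agent.TH177.LH
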